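import Pool.Agent.MP_a8d80e_an.H53.Main

set_option autoImplicit false

open Pool.Agent.MP_a8d80e_an.H53 in
/-- The critical dimension exists and equals 7: the extremal solution exists in every dimension,
is regular for `n < 7` and singular for `n ≥ 7`. -/
theorem Pool.Agent.Results.MP_a8d80e_an.CriticalSeven.result (n : ℕ) (hn : 1 ≤ n) :
    (Params n).Nonempty ∧ BddAbove (Params n) ∧ (∃ v, IsExtremal n v) ∧
      ∀ v, IsExtremal n v →
        (n < 7 → ∃ c < 1, ∀ x ∈ Metric.ball (0 : EuclideanSpace ℝ (Fin n)) 1, v x ≤ c) ∧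
        (7 ≤ n → IsLUB (v '' Metric.ball 0 1) 1) := by
  obtain ⟨m, rfl⟩ : ∃ m, n = m + 1 := ⟨n - 1, by omega⟩
  exact ⟨⟨1, one_mem⟩, bdd, exists_extremal, fun v hv =>
    ⟨fun h => regular_case (by omega) hv, fun h => singular_case (by omega) hv⟩⟩
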